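import Pool.Agent.PSS.StmtsS1a

/-!
# Squad PSS, row LFT (helper51): the lift of the algebra with all its data.
-/

open scoped BigOperators TensorProduct

noncomputable section

namespace Pool.Agent.PSS.H51

open Pool.Agent.PFD.D2 (Cdv FibG)
open Pool.Agent.PFD.D2b (FrR)
open Pool.Agent.PSS
open Finset

/-- the special fibre map transported to the ring `A'` -/
def fq {R F V A M A' : Type} [CommRing R] [Field F] {c : Cdv R F} [CommGroup V]
    [Ring A] [Algebra F A] [AddCommGroup M] [Module R M] [Ring A'] [Algebra R A']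
    {α : V →* A} {ρ : V × V →* (M →ₗ[R] M)} {q : M →+ A} (hred : RedM c ρ (bw F α) q)
    {β : M →ₗ[R] M →ₗ[R] M} (hβ : ∀ x y, q (β x y) = q x * q y) (φ : M ≃ₗ[R] A')
    (hφ : ∀ x y, φ (β x y) = φ x * φ y) (h1 : q (φ.symm 1) = 1) : FibG A' A c where
  q :=
    { toFun := fun a => q (φ.symm a)
      map_one' := h1
      map_mul' := fun a a' => by
        have h : φ.symm (a * a') = β (φ.symm a) (φ.symm a') := by
          rw [LinearEquiv.symm_apply_eq, hφ, LinearEquiv.apply_symm_apply,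
            LinearEquiv.apply_symm_apply]
        rw [h, hβ]
      map_zero' := by rw [map_zero, map_zero]
      map_add' := fun a a' => by rw [map_add, map_add] }
  sc := fun r => by
    show q (φ.symm (algebraMap R A' r)) = algebraMap F A (c.κ r)
    rw [Algebra.algebraMap_eq_smul_one, map_smul, hred.sc, h1, Algebra.algebraMap_eq_smul_one]
  surj := fun a => by
    obtain ⟨m, hm⟩ := hred.sj a
    refine ⟨φ m, ?_⟩
    show q (φ.symm (φ m)) = a
    rw [LinearEquiv.symm_apply_apply, hm]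
  ker := fun a ha => by
    obtain ⟨m, hm⟩ := (hred.kr _).1 ha
    refine ⟨φ m, ?_⟩
    rw [← map_smul, ← hm, LinearEquiv.apply_symm_apply]

theorem fq_apply {R F V A M A' : Type} [CommRing R] [Field F] {c : Cdv R F} [CommGroup V]
    [Ring A] [Algebra F A] [AddCommGroup M] [Module R M] [Ring A'] [Algebra R A']
    {α : V →* A} {ρ : V × V →* (M →ₗ[R] M)} {q : M →+ A} (hred : RedM c ρ (bw F α) q)
    {β : M →ₗ[R] M →ₗ[R] M} (hβ : ∀ x y, q (β x y) = q x * q y) (φ : M ≃ₗ[R] A')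
    (hφ : ∀ x y, φ (β x y) = φ x * φ y) (h1 : q (φ.symm 1) = 1) (a : A') :
    (fq hred hβ φ hφ h1).q a = q (φ.symm a) := rfl

/-- the frame transported to the ring `A'` -/
theorem frm_tr {R V M A' Ω : Type} [CommRing R] [CommGroup V] [AddCommGroup M] [Module R M]
    [Ring A'] [Algebra R A'] [Fintype Ω] [MulAction (V × V) Ω] {ρ : V × V →* (M →ₗ[R] M)}
    {b : Ω → M} {cc : Ω → (M →ₗ[R] R)} (h : FrR ρ b cc) (φ : M ≃ₗ[R] A') (α' : V →* A')
    (hρ : ∀ u v x, φ (ρ (u, v) x) = α' u * φ x * α' v⁻¹) :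
    FrR (bw R α') (fun ω => φ (b ω)) (fun ω => (cc ω).comp (φ.symm : A' →ₗ[R] M)) := by
  have hbw : ∀ (g : V × V) (m : M), bw R α' g (φ m) = φ (ρ g m) := by
    rintro ⟨u, v⟩ m
    rw [hρ]
    show α' u * (φ m * α' v⁻¹) = α' u * φ m * α' v⁻¹
    rw [mul_assoc]
  refine ⟨?_, ?_, ?_⟩
  · intro g t
    show φ (b (g • t)) = bw R α' g (φ (b t))
    rw [h.1, hbw]
  · intro g t n
    obtain ⟨m, rfl⟩ := φ.surjective n
    rw [hbw]
    show cc (g • t) (φ.symm (φ (ρ g m))) = cc t (φ.symm (φ m))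
    rw [LinearEquiv.symm_apply_apply, LinearEquiv.symm_apply_apply, h.2.1]
  · intro n
    obtain ⟨m, rfl⟩ := φ.surjective n
    have h3 := h.2.2 m
    show ∑ t, cc t (φ.symm (φ m)) • φ (b t) = φ m
    rw [LinearEquiv.symm_apply_apply]
    conv_rhs => rw [← h3, map_sum]
    refine Finset.sum_congr rfl fun t _ => ?_
    rw [map_smul]

theorem lft (hMOL : MolStmt) (hBVL : BvlStmt) (hCSU : CsuStmt) (hALV : AlvStmt)
    (hRGV : RgvStmt) (hFLV : FlvStmt) (hRFM : RfmStmt) (hUZL : UzlStmt) : LftStmt := by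
  intro R F V A K Ω _ _ _ _ c _ _ _ _ _ _ _ α lam x y b cc u _ hRF hFr hu
  obtain ⟨M, _, _, _, _, ρ, b₁, cc₁, q, hfr1, hred, hqb, hqc⟩ :=
    hMOL R F (V × V) A Ω c (bw F α) b cc hFr
  have hL := hBVL R F V M A Ω c ρ (bw F α) q b₁ cc₁ hfr1 hred
  obtain ⟨_, hcsm⟩ := hCSU F V A K α lam x y u hRF hu
  obtain ⟨β, hβ1, hβ2, hβ3⟩ :=
    hALV R F V A M K c α x (fun i => y i * u) hcsm ρ q hred hL
  obtain ⟨A', _, _, φ, α', hφ, hρ, hqα, hq1⟩ :=
    hRGV R F V A M c α ρ q hred β hβ1 hβ2 hβ3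
  have hfin : Module.Finite R A' := Module.Finite.equiv φ
  have hfree : Module.Free R A' := Module.Free.of_equiv φ
  have hfr' := frm_tr hfr1 φ α' hρ
  obtain ⟨lam', hlam1, hlam2⟩ := hFLV R F V A A' Ω K c α α' (fq hred hβ2 φ hφ hq1)
    (fun ω => φ (b₁ ω)) (fun ω => (cc₁ ω).comp (φ.symm : A' →ₗ[R] M)) lam x
    (fun i => y i * u) hqα hfr' hcsm hRF.sym
  have hx : ∀ t, ∃ a, (fq hred hβ2 φ hφ hq1).q a = x t := fun t =>
    (fq hred hβ2 φ hφ hq1).surj (x t)
  choose x' hx' using hx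
  have hunit : ∀ r, IsUnit (1 + c.π * r) := by
    intro r
    refine c.loc _ ?_
    have h0 : c.κ (c.π * r) = 0 := (c.ker _).2 ⟨r, rfl⟩
    rw [map_add, h0, map_one, add_zero]
    exact one_ne_zero
  obtain ⟨y', hrf', hy'⟩ := hRFM R F V A A' K c.π c.κ α α' (fq hred hβ2 φ hφ hq1).q lam lam'
    x y x' hunit c.reg ⟨c.surj, c.ker⟩ (fq hred hβ2 φ hφ hq1).sc (fq hred hβ2 φ hφ hq1).surj
    (fq hred hβ2 φ hφ hq1).ker hqα hlam2 hlam1 hRF hx'
  have hLift : LiftV c α lam x y b cc (fq hred hβ2 φ hφ hq1) α' lam' x' y'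
      (fun ω => φ (b₁ ω)) (fun ω => (cc₁ ω).comp (φ.symm : A' →ₗ[R] M)) :=
    { qa := hqα
      ql := hlam2
      qx := hx'
      qy := hy'
      qb := fun ω => by
        show q (φ.symm (φ (b₁ ω))) = b ω
        rw [LinearEquiv.symm_apply_apply, hqb]
      qc := fun ω a => hqc ω (φ.symm a)
      rf := hrf'
      fr := hfr' }
  obtain ⟨⟨u', hu'⟩, _, _⟩ := hUZL R F V A A' K Ω c α lam x y b cc (fq hred hβ2 φ hφ hq1)
    α' lam' x' y' (fun ω => φ (b₁ ω)) (fun ω => (cc₁ ω).comp (φ.symm : A' →ₗ[R] M)) u hLift hu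
  exact ⟨A', inferInstance, inferInstance, hfin, hfree, fq hred hβ2 φ hφ hq1, α', lam', x', y',
    (fun ω => φ (b₁ ω)), (fun ω => (cc₁ ω).comp (φ.symm : A' →ₗ[R] M)), u', hLift, hu'⟩

end Pool.Agent.PSS.H51
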